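import Pool.Agent.helper95.PY2.Spec

set_option autoImplicit false

open Finset

namespace Pool.Agent.PY2

theorem SPC_aux (p : ℕ) [Fact p.Prime] (L : ℕ) (y : ZMod p) (j : ℕ) :
    ∃ c : ℤ, (y - ((j * L : ℕ) : ZMod p)).valMinAbs = (y.val : ℤ) - (j : ℤ) * L + p * c := by
  have hdvd : (p : ℤ) ∣ (y - ((j * L : ℕ) : ZMod p)).valMinAbs - ((y.val : ℤ) - (j : ℤ) * L) := by
    rw [← ZMod.intCast_zmod_eq_zero_iff_dvd]
    push_cast
    rw [ZMod.natCast_zmod_val]
    ring
  obtain ⟨c, hc⟩ := hdvd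
  exact ⟨c, by linarith⟩

theorem SPC : SPC_stmt := by
  intro p hp L m y hL
  have : NeZero p := ⟨hp.out.ne_zero⟩
  have hp0 : 0 < p := hp.out.pos
  choose c hc using SPC_aux p L y
  have hcard : ((Finset.Icc (-1 : ℤ) 1) ×ˢ (Finset.univ : Finset Bool)).card = 6 := by
    rw [Finset.card_product]; simp
  rw [← hcard]
  refine Finset.card_le_card_of_injOn
    (fun j => (c j, decide (0 ≤ (y - ((j * L : ℕ) : ZMod p)).valMinAbs))) ?_ ?_
  · intro j hj
    have hj' := (Finset.mem_filter.1 (Finset.mem_coe.1 hj)).1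
    rw [Finset.mem_range] at hj'
    have hjL : j * L ≤ p := by
      have : j ≤ p / L := by omega
      calc j * L ≤ p / L * L := Nat.mul_le_mul_right _ this
        _ ≤ p := Nat.div_mul_le_self p L
    have hw := ZMod.valMinAbs_mem_Ioc (y - ((j * L : ℕ) : ZMod p))
    have hY : y.val < p := ZMod.val_lt y
    have hcj := hc j
    have hjL' : (j : ℤ) * L ≤ p := by exact_mod_cast hjL
    have hjL0 : (0 : ℤ) ≤ (j : ℤ) * L := by positivity
    have hY' : (y.val : ℤ) < p := by exact_mod_cast hY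
    have hY0 : (0 : ℤ) ≤ (y.val : ℤ) := by positivity
    have hp' : (0 : ℤ) < p := by exact_mod_cast hp0
    obtain ⟨h1, h2⟩ := hw
    rw [hcj] at h1 h2
    have h3 : c j < 2 := by
      by_contra hcon
      have : 2 ≤ c j := by omega
      nlinarith
    have h4 : -2 < c j := by
      by_contra hcon
      have : c j ≤ -2 := by omega
      nlinarith
    simp only [Finset.coe_product, Set.mem_prod, Finset.mem_coe, Finset.mem_Icc, Finset.mem_univ,
      and_true]
    constructor <;> omega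
  · intro j₁ hj₁ j₂ hj₂ h
    have h1 := (Finset.mem_filter.1 (Finset.mem_coe.1 hj₁)).2
    have h2 := (Finset.mem_filter.1 (Finset.mem_coe.1 hj₂)).2
    simp only [Prod.mk.injEq, decide_eq_decide] at h
    obtain ⟨hcc, hs⟩ := h
    have e1 := hc j₁
    have e2 := hc j₂
    rw [hcc] at e1
    set w₁ := (y - ((j₁ * L : ℕ) : ZMod p)).valMinAbs with hw₁
    set w₂ := (y - ((j₂ * L : ℕ) : ZMod p)).valMinAbs with hw₂
    have hdiff : w₁ - w₂ = ((j₂ : ℤ) - j₁) * L := by rw [e1, e2]; ring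
    have hL' : (0 : ℤ) < L := by exact_mod_cast hL
    have a1 : (m : ℤ) * L ≤ |w₁| ∧ |w₁| < ((m : ℤ) + 1) * L := by
      have k1 := Nat.div_mul_le_self w₁.natAbs L
      have k2 := Nat.lt_div_mul_add (a := w₁.natAbs) (b := L) (by omega)
      rw [h1] at k1 k2
      rw [Int.abs_eq_natAbs]
      refine ⟨by exact_mod_cast k1, ?_⟩
      have : w₁.natAbs < (m + 1) * L := by linarith
      exact_mod_cast this
    have a2 : (m : ℤ) * L ≤ |w₂| ∧ |w₂| < ((m : ℤ) + 1) * L := by
      have k1 := Nat.div_mul_le_self w₂.natAbs L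
      have k2 := Nat.lt_div_mul_add (a := w₂.natAbs) (b := L) (by omega)
      rw [h2] at k1 k2
      rw [Int.abs_eq_natAbs]
      refine ⟨by exact_mod_cast k1, ?_⟩
      have : w₂.natAbs < (m + 1) * L := by linarith
      exact_mod_cast this
    have hlt : |w₁ - w₂| < L := by
      by_cases hs1 : 0 ≤ w₁
      · have hs2 := hs.1 hs1
        rw [abs_of_nonneg hs1] at a1
        rw [abs_of_nonneg hs2] at a2
        rw [abs_lt]
        constructor <;> linarith [a1.1, a1.2, a2.1, a2.2]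
      · have hs2 : ¬ 0 ≤ w₂ := fun h => hs1 (hs.2 h)
        rw [abs_of_neg (not_le.1 hs1)] at a1
        rw [abs_of_neg (not_le.1 hs2)] at a2
        rw [abs_lt]
        constructor <;> linarith [a1.1, a1.2, a2.1, a2.2]
    rw [hdiff, abs_mul, abs_of_pos hL'] at hlt
    have h5 : |(j₂ : ℤ) - j₁| < 1 := by
      by_contra hcon
      have : 1 ≤ |(j₂ : ℤ) - j₁| := by omega
      nlinarith
    have h6 : (j₂ : ℤ) - j₁ = 0 := by
      rwa [Int.abs_lt_one_iff] at h5
    omega

end Pool.Agent.PY2
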